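import Mathlib

/-!
# Centroids of hyperplane sections and affine symmetries
-/

set_option autoImplicit false

namespace V1125.Sccp

open MeasureTheory Set Module

variable {E : Type*} [NormedAddCommGroup E] [InnerProductSpace ℝ E] [FiniteDimensional ℝ E]
  [MeasurableSpace E] [BorelSpace E]

/-- The centroid of a set with respect to the `n`-dimensional Hausdorff measure. -/
noncomputable def cen (n : ℕ) (S : Set E) : E := ⨍ x in S, x ∂(μH[(n : ℝ)])

theorem cen_fixed (M : Submodule ℝ E) (n : ℕ) (hn : finrank ℝ M = n) (P0 : E) (Ω : Set E)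
    (hΩ : IsOpen Ω) (hP0 : P0 ∈ Ω) (hb : Bornology.IsBounded ({x | x - P0 ∈ M} ∩ Ω))
    (T : E → E) (L : E →ₗ[ℝ] E) (hTL : ∀ x y, T (x + y) = T x + L y) (hinv : ∀ x, T (T x) = x)
    (hTM : ∀ v ∈ M, L v ∈ M) (hT0 : T P0 - P0 ∈ M) (hTΩ : ∀ x ∈ Ω, T x ∈ Ω) :
    T (cen n ({x | x - P0 ∈ M} ∩ Ω)) = cen n ({x | x - P0 ∈ M} ∩ Ω) := by
  classical
  subst hn
  have hTΩ' : ∀ x, T x ∈ Ω ↔ x ∈ Ω := fun x => ⟨fun h => by
    have := hTΩ _ h
    rwa [hinv] at this, hTΩ x⟩
  -- the measure on `M`
  let μM : Measure M := μH[(finrank ℝ M : ℝ)]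
  have hHaar : μM.IsAddHaarMeasure := isAddHaarMeasure_hausdorffMeasure (E := M)
  let i : M → E := fun v => P0 + v
  have hi : Isometry i := by
    intro v w
    simp only [i, edist_add_left]
    rfl
  have hicont : Continuous i := hi.continuous
  have hmap : Measure.map i μM = μH[(finrank ℝ M : ℝ)].restrict (range i) :=
    hi.map_hausdorffMeasure (Or.inl (Nat.cast_nonneg _))
  have hrange : {x | x - P0 ∈ M} = range i := by
    ext x
    constructor
    · intro hx
      exact ⟨⟨x - P0, hx⟩, by simp [i]⟩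
    · rintro ⟨v, rfl⟩
      simp [i]
  let SM : Set M := i ⁻¹' Ω
  have hSMo : IsOpen SM := hΩ.preimage hicont
  have hSMne : SM.Nonempty := ⟨0, by simp [SM, i, hP0]⟩
  have hSMb : Bornology.IsBounded SM := by
    have h1 : SM ⊆ i ⁻¹' ({x | x - P0 ∈ M} ∩ Ω) := by
      intro v hv
      exact ⟨by rw [hrange]; exact ⟨v, rfl⟩, hv⟩
    exact (hi.antilipschitz.isBounded_preimage hb).subset h1
  let ν : Measure M := μM.restrict SM
  have hνpos : ν univ ≠ 0 := by
    rw [Measure.restrict_apply_univ]
    exact (hSMo.measure_pos μM hSMne).ne'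
  have hνfin : ν univ ≠ ⊤ := by
    rw [Measure.restrict_apply_univ]
    exact (hSMb.measure_lt_top).ne
  have hres : μH[(finrank ℝ M : ℝ)].restrict ({x | x - P0 ∈ M} ∩ Ω) = Measure.map i ν := by
    rw [hrange, Set.inter_comm, ← Measure.restrict_restrict hΩ.measurableSet, ← hmap,
      Measure.restrict_map hicont.measurable hΩ.measurableSet]
  -- the induced map on `M`
  let m0 : M := ⟨T P0 - P0, hT0⟩
  let LM : M →ₗ[ℝ] M := L.restrict hTM
  have hLinj : Function.Injective L := by
    intro x y hxy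
    have h1 : T (0 + x) = T (0 + y) := by rw [hTL, hTL, hxy]
    have h2 := congrArg T h1
    rw [hinv, hinv, zero_add, zero_add] at h2
    exact h2
  have hLMinj : Function.Injective LM := by
    intro x y hxy
    have := congrArg Subtype.val hxy
    exact Subtype.ext (hLinj this)
  have hdet : LinearMap.det LM ≠ 0 := by
    have := (LinearEquiv.ofInjectiveEndo LM hLMinj).isUnit_det'
    have h2 : ((LinearEquiv.ofInjectiveEndo LM hLMinj : M ≃ₗ[ℝ] M) : M →ₗ[ℝ] M) = LM := by
      ext x; rfl
    rw [h2] at this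
    exact this.ne_zero
  let TM : M → M := fun v => m0 + LM v
  have hTMi : ∀ v, T (i v) = i (TM v) := by
    intro v
    simp only [i, TM, hTL]
    simp [m0, LM]
    abel
  have hTMmeas : Measurable TM := by
    have : Continuous TM := continuous_const.add LM.continuous_of_finiteDimensional
    exact this.measurable
  obtain ⟨κ, hκ⟩ : ∃ κ : ENNReal, Measure.map TM μM = κ • μM := by
    refine ⟨ENNReal.ofReal |(LinearMap.det LM)⁻¹|, ?_⟩
    have h1 : TM = (fun v => m0 + v) ∘ LM := rfl
    rw [h1, ← Measure.map_map (measurable_const_add m0)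
      LM.continuous_of_finiteDimensional.measurable,
      Measure.map_linearMap_addHaar_eq_smul_addHaar μM hdet, Measure.map_smul,
      map_add_left_eq_self]
  have hpre : TM ⁻¹' SM = SM := by
    ext v
    simp only [SM, Set.mem_preimage]
    rw [← hTMi, hTΩ']
  have hν : Measure.map TM ν = κ • ν := by
    have h1 : ν = μM.restrict (TM ⁻¹' SM) := by rw [hpre]
    rw [h1, ← Measure.restrict_map hTMmeas hSMo.measurableSet, hκ, Measure.restrict_smul, hpre]
  have hκ1 : κ = 1 := by
    have h1 : Measure.map TM ν univ = κ * ν univ := by rw [hν]; simp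
    rw [Measure.map_apply hTMmeas MeasurableSet.univ, Set.preimage_univ] at h1
    have h2 : 1 * ν univ = κ * ν univ := by rw [one_mul]; exact h1
    exact ((ENNReal.mul_left_inj hνpos hνfin).1 h2).symm
  rw [hκ1, one_smul] at hν
  -- the centroid
  have hcen : cen (finrank ℝ M) ({x | x - P0 ∈ M} ∩ Ω) = (ν.real univ)⁻¹ • ∫ v, i v ∂ν := by
    unfold cen
    rw [hres, average_eq, integral_map hicont.aemeasurable (by fun_prop)]
    congr 2
    rw [measureReal_def, Measure.map_apply hicont.measurable MeasurableSet.univ, Set.preimage_univ]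
    rfl
  have hνr : ν.real univ ≠ 0 := by
    rw [measureReal_def]
    exact (ENNReal.toReal_pos hνpos hνfin).ne'
  have : IsFiniteMeasure ν := ⟨lt_top_iff_ne_top.2 hνfin⟩
  have hint : Integrable i ν := by
    obtain ⟨R, hR⟩ := hSMb.exists_norm_le
    refine Integrable.of_bound hicont.aestronglyMeasurable (‖P0‖ + R) ?_
    rw [ae_restrict_iff' hSMo.measurableSet]
    refine Filter.Eventually.of_forall fun v hv => ?_
    exact (norm_add_le _ _).trans (by gcongr; exact hR v hv)
  have hTx : ∀ x, T x = L x + T 0 := by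
    intro x
    have := hTL 0 x
    rw [zero_add] at this
    rw [this, add_comm]
  have hint2 : Integrable (fun v => L (i v)) ν := by
    exact (LinearMap.toContinuousLinearMap L).integrable_comp hint
  have h1 : ∫ v, T (i v) ∂ν = ∫ v, i v ∂ν := by
    calc ∫ v, T (i v) ∂ν = ∫ v, i (TM v) ∂ν := by simp_rw [hTMi]
      _ = ∫ w, i w ∂(Measure.map TM ν) := by
        rw [integral_map hTMmeas.aemeasurable (by fun_prop)]
      _ = _ := by rw [hν]
  have h2 : ∫ v, T (i v) ∂ν = L (∫ v, i v ∂ν) + (ν.real univ) • T 0 := by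
    simp_rw [hTx (i _)]
    rw [integral_add hint2 (integrable_const _), integral_const]
    congr 1
    exact (LinearMap.toContinuousLinearMap L).integral_comp_comm hint
  rw [hcen]
  have h3 : L (∫ v, i v ∂ν) = (∫ v, i v ∂ν) - (ν.real univ) • T 0 :=
    eq_sub_of_add_eq (h2.symm.trans h1)
  rw [hTx, map_smul, h3, smul_sub, smul_smul, inv_mul_cancel₀ hνr, one_smul]
  abel

end V1125.Sccp
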