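import Mathlib
import Pool.Agent.V1125.Sccp.Cen

/-!
# The domains `∏ (x_i - |z_i|^2) > 1`
-/

set_option autoImplicit false

namespace V1125.Sccp

open Set

variable {ι : Type*} [Fintype ι] {r m : ℕ} (c : Fin r × Fin (m + 1) ≃ ι)

/-- The point with coordinates `x_i` and `z_i`. -/
noncomputable def mkP (x : Fin r → ℝ) (z : Fin r → Fin m → ℝ) : EuclideanSpace ℝ ι :=
  WithLp.toLp 2 (fun k => Fin.cons (α := fun _ => ℝ) (x (c.symm k).1) (z (c.symm k).1) (c.symm k).2)

@[simp] theorem mkP_zero (x : Fin r → ℝ) (z : Fin r → Fin m → ℝ) (i : Fin r) :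
    mkP c x z (c (i, 0)) = x i := by
  simp [mkP]

@[simp] theorem mkP_succ (x : Fin r → ℝ) (z : Fin r → Fin m → ℝ) (i : Fin r) (j : Fin m) :
    mkP c x z (c (i, j.succ)) = z i j := by
  simp [mkP]

theorem ext_c {P Q : EuclideanSpace ℝ ι} (h0 : ∀ i, P (c (i, 0)) = Q (c (i, 0)))
    (h1 : ∀ i (j : Fin m), P (c (i, j.succ)) = Q (c (i, j.succ))) : P = Q := by
  ext k
  obtain ⟨⟨i, j⟩, rfl⟩ := c.surjective k
  refine Fin.cases ?_ (fun j => ?_) j
  · exact h0 i
  · exact h1 i j

/-- The function `x_i - |z_i|^2`. -/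
noncomputable def X (P : EuclideanSpace ℝ ι) (i : Fin r) : ℝ :=
  P (c (i, 0)) - ∑ j : Fin m, (P (c (i, j.succ))) ^ 2

/-- The domain. -/
def Dom : Set (EuclideanSpace ℝ ι) := {P | (∀ i, 0 < X c P i) ∧ 1 < ∏ i, X c P i}

theorem continuous_X (i : Fin r) : Continuous (fun P : EuclideanSpace ℝ ι => X c P i) := by
  unfold X
  fun_prop

theorem contDiff_X (i : Fin r) {N : WithTop ℕ∞} :
    ContDiff ℝ N (fun P : EuclideanSpace ℝ ι => X c P i) := by
  unfold X
  fun_prop

theorem isOpen_dom : IsOpen (Dom c) := by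
  unfold Dom
  rw [Set.ofPred_and]
  refine IsOpen.inter ?_ ?_
  · rw [Set.ofPred_forall]
    exact isOpen_iInter_of_finite fun i => isOpen_lt continuous_const (continuous_X c i)
  · exact isOpen_lt continuous_const (continuous_finsetProd _ fun i _ => continuous_X c i)

theorem X_add (P : EuclideanSpace ℝ ι) (y : Fin r → ℝ) (i : Fin r) :
    X c (P + mkP c y 0) i = X c P i + y i := by
  simp [X]
  ring

theorem X_mkP (x : Fin r → ℝ) (z : Fin r → Fin m → ℝ) (i : Fin r) :
    X c (mkP c x z) i = x i - ∑ j, (z i j) ^ 2 := by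
  simp [X]

theorem X_comb (P Q : EuclideanSpace ℝ ι) (a b : ℝ) (hab : a + b = 1) (i : Fin r) :
    X c (a • P + b • Q) i = a * X c P i + b * X c Q i +
      a * b * ∑ j : Fin m, (P (c (i, j.succ)) - Q (c (i, j.succ))) ^ 2 := by
  simp only [X, PiLp.add_apply, PiLp.smul_apply, smul_eq_mul]
  rw [Finset.mul_sum, mul_sub, mul_sub, Finset.mul_sum, Finset.mul_sum]
  have h : ∑ j : Fin m, (a * P (c (i, j.succ)) + b * Q (c (i, j.succ))) ^ 2 =
      ∑ j : Fin m, (a * P (c (i, j.succ)) ^ 2 + b * Q (c (i, j.succ)) ^ 2 -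
        a * b * (P (c (i, j.succ)) - Q (c (i, j.succ))) ^ 2) := by
    refine Finset.sum_congr rfl fun j _ => ?_
    obtain rfl : b = 1 - a := by linarith
    ring
  rw [h, Finset.sum_sub_distrib, Finset.sum_add_distrib]
  ring

theorem closure_dom (hr : 0 < r) :
    closure (Dom c) = {P | (∀ i, 0 < X c P i) ∧ 1 ≤ ∏ i, X c P i} := by
  apply Set.Subset.antisymm
  · have hclosed : IsClosed {P : EuclideanSpace ℝ ι | (∀ i, 0 ≤ X c P i) ∧ 1 ≤ ∏ i, X c P i} := by
      rw [Set.ofPred_and]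
      refine IsClosed.inter ?_ ?_
      · rw [Set.ofPred_forall]
        exact isClosed_iInter fun i => isClosed_le continuous_const (continuous_X c i)
      · exact isClosed_le continuous_const (continuous_finsetProd _ fun i _ => continuous_X c i)
    refine (closure_minimal ?_ hclosed).trans ?_
    · rintro P ⟨h1, h2⟩
      exact ⟨fun i => (h1 i).le, h2.le⟩
    · rintro P ⟨h1, h2⟩
      refine ⟨fun i => lt_of_le_of_ne (h1 i) ?_, h2⟩
      intro h0
      rw [Finset.prod_eq_zero (Finset.mem_univ i) h0.symm] at h2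
      linarith
  · rintro P ⟨h1, h2⟩
    rw [mem_closure_iff_seq_limit]
    refine ⟨fun n => P + (1 / ((n : ℝ) + 1)) • mkP c 1 0, fun n => ?_, ?_⟩
    · have hn : (0 : ℝ) < 1 / ((n : ℝ) + 1) := by positivity
      have hX : ∀ i, X c (P + (1 / ((n : ℝ) + 1)) • mkP c 1 0) i = X c P i + 1 / ((n : ℝ) + 1) := by
        intro i
        have : (1 / ((n : ℝ) + 1)) • mkP c 1 0 = mkP c (fun _ => 1 / ((n : ℝ) + 1)) 0 := by
          apply ext_c c <;> intros <;> simp
        rw [this, X_add]
      refine ⟨fun i => by rw [hX]; linarith [h1 i], ?_⟩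
      refine lt_of_le_of_lt h2 ?_
      refine Finset.prod_lt_prod_of_nonempty (fun i _ => h1 i) (fun i _ => by rw [hX]; linarith) ?_
      exact ⟨⟨0, hr⟩, Finset.mem_univ _⟩
    · have h3 : Filter.Tendsto (fun n : ℕ => P + (1 / ((n : ℝ) + 1)) • mkP c 1 0) Filter.atTop
          (nhds (P + (0 : ℝ) • mkP c 1 0)) :=
        tendsto_const_nhds.add (tendsto_one_div_add_atTop_nhds_zero_nat.smul_const _)
      simpa using h3

theorem dom_subset : Dom c ⊆ closure (Dom c) := subset_closure

theorem comb_mem (hr : 0 < r) {P Q : EuclideanSpace ℝ ι} (hP : P ∈ closure (Dom c))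
    (hQ : Q ∈ closure (Dom c)) (hPQ : P ≠ Q) {a b : ℝ} (ha : 0 < a) (hb : 0 < b)
    (hab : a + b = 1) : a • P + b • Q ∈ Dom c := by
  rw [closure_dom c hr] at hP hQ
  obtain ⟨hP1, hP2⟩ := hP
  obtain ⟨hQ1, hQ2⟩ := hQ
  have hd : ∀ i, 0 ≤ a * b * ∑ j : Fin m, (P (c (i, j.succ)) - Q (c (i, j.succ))) ^ 2 :=
    fun i => mul_nonneg (by positivity) (Finset.sum_nonneg fun j _ => sq_nonneg _)
  have hpos : ∀ i, 0 < a * X c P i + b * X c Q i := fun i =>
    add_pos (mul_pos ha (hP1 i)) (mul_pos hb (hQ1 i))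
  have hX : ∀ i, a * X c P i + b * X c Q i ≤ X c (a • P + b • Q) i := by
    intro i
    rw [X_comb c P Q a b hab]
    linarith [hd i]
  refine ⟨fun i => (hpos i).trans_le (hX i), ?_⟩
  -- logarithms
  have hlogP : 0 ≤ ∑ i, Real.log (X c P i) := by
    rw [← Real.log_prod fun i _ => (hP1 i).ne']
    exact Real.log_nonneg hP2
  have hlogQ : 0 ≤ ∑ i, Real.log (X c Q i) := by
    rw [← Real.log_prod fun i _ => (hQ1 i).ne']
    exact Real.log_nonneg hQ2
  have hconc : ∀ i, a * Real.log (X c P i) + b * Real.log (X c Q i) ≤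
      Real.log (a * X c P i + b * X c Q i) := by
    intro i
    have := strictConcaveOn_log_Ioi.concaveOn.2 (hP1 i) (hQ1 i) ha.le hb.le hab
    simpa using this
  have hle : ∀ i, a * Real.log (X c P i) + b * Real.log (X c Q i) ≤
      Real.log (X c (a • P + b • Q) i) :=
    fun i => (hconc i).trans (Real.log_le_log (hpos i) (hX i))
  obtain ⟨i0, hi0⟩ : ∃ i, a * Real.log (X c P i) + b * Real.log (X c Q i) <
      Real.log (X c (a • P + b • Q) i) := by
    by_contra hcon
    push Not at hcon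
    apply hPQ
    have hz : ∀ i (j : Fin m), P (c (i, j.succ)) = Q (c (i, j.succ)) := by
      intro i
      have h1 : Real.log (X c (a • P + b • Q) i) ≤ Real.log (a * X c P i + b * X c Q i) :=
        (hcon i).trans (hconc i)
      have h2 := (Real.log_le_log_iff ((hpos i).trans_le (hX i)) (hpos i)).1 h1
      rw [X_comb c P Q a b hab] at h2
      have h3 : ∑ j : Fin m, (P (c (i, j.succ)) - Q (c (i, j.succ))) ^ 2 = 0 := by
        have h4 : a * b * ∑ j : Fin m, (P (c (i, j.succ)) - Q (c (i, j.succ))) ^ 2 = 0 :=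
          le_antisymm (by linarith) (hd i)
        exact (mul_eq_zero.1 h4).resolve_left (mul_pos ha hb).ne'
      intro j
      have h5 := (Finset.sum_eq_zero_iff_of_nonneg fun j _ => sq_nonneg _).1 h3 j
        (Finset.mem_univ j)
      exact sub_eq_zero.1 (pow_eq_zero_iff (two_ne_zero) |>.1 h5)
    have hx : ∀ i, X c P i = X c Q i := by
      intro i
      by_contra hne
      have h1 := strictConcaveOn_log_Ioi.2 (hP1 i) (hQ1 i) hne ha hb hab
      simp only [smul_eq_mul] at h1
      have h2 := h1.trans_le (Real.log_le_log (hpos i) (hX i))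
      exact absurd h2 (not_lt.2 (hcon i))
    refine ext_c c (fun i => ?_) hz
    have h1 := hx i
    unfold X at h1
    simp only [hz i] at h1
    linarith
  have hsum : 0 < ∑ i, Real.log (X c (a • P + b • Q) i) := by
    have h1 : ∑ i, (a * Real.log (X c P i) + b * Real.log (X c Q i)) <
        ∑ i, Real.log (X c (a • P + b • Q) i) :=
      Finset.sum_lt_sum (fun i _ => hle i) ⟨i0, Finset.mem_univ _, hi0⟩
    rw [Finset.sum_add_distrib, ← Finset.mul_sum, ← Finset.mul_sum] at h1
    have h2 : 0 ≤ a * ∑ i, Real.log (X c P i) + b * ∑ i, Real.log (X c Q i) := by positivity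
    linarith
  rw [← Real.log_prod fun i _ => ((hpos i).trans_le (hX i)).ne'] at hsum
  exact (Real.log_pos_iff (Finset.prod_nonneg fun i _ => ((hpos i).trans_le (hX i)).le)).1 hsum

theorem strictConvex_closure (hr : 0 < r) : StrictConvex ℝ (closure (Dom c)) := by
  intro P hP Q hQ hPQ a b ha hb hab
  exact interior_maximal subset_closure (isOpen_dom c) (comb_mem c hr hP hQ hPQ ha hb hab)

theorem frontier_dom (hr : 0 < r) :
    frontier (Dom c) = {P | (∀ i, 0 < X c P i) ∧ ∏ i, X c P i = 1} := by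
  rw [frontier, closure_dom c hr, (isOpen_dom c).interior_eq]
  ext P
  simp only [Dom, Set.mem_sdiff, Set.mem_ofPred_eq, not_and, not_lt]
  constructor
  · rintro ⟨⟨h1, h2⟩, h3⟩
    exact ⟨h1, le_antisymm (h3 h1) h2⟩
  · rintro ⟨h1, h2⟩
    exact ⟨⟨h1, h2.ge⟩, fun _ => h2.le⟩

theorem two_mem (hr : 0 < r) : mkP c (fun _ => 2) (0 : Fin r → Fin m → ℝ) ∈ Dom c := by
  have h : ∀ i, X c (mkP c (fun _ => 2) (0 : Fin r → Fin m → ℝ)) i = 2 := by
    intro i; rw [X_mkP]; simp
  refine ⟨fun i => by rw [h]; norm_num, ?_⟩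
  simp only [h]
  rw [Finset.prod_const]
  exact one_lt_pow₀ (by norm_num) (by simp; omega)

/-- Smooth boundary: near each boundary point the domain is given by a regular smooth
inequality. -/
theorem smooth_boundary (hr : 0 < r) : ∀ x ∈ frontier (Dom c), ∃ (U : Set (EuclideanSpace ℝ ι))
    (F : EuclideanSpace ℝ ι → ℝ), IsOpen U ∧ x ∈ U ∧ ContDiff ℝ (⊤ : ℕ∞) F ∧
      fderiv ℝ F x ≠ 0 ∧ Dom c ∩ U = {y | 0 < F y} ∩ U := by
  intro P hP
  rw [frontier_dom c hr] at hP
  obtain ⟨h1, h2⟩ := hP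
  refine ⟨{Q | ∀ i, 0 < X c Q i}, fun Q => ∏ i, X c Q i - 1, ?_, h1, ?_, ?_, ?_⟩
  · rw [Set.ofPred_forall]
    exact isOpen_iInter_of_finite fun i => isOpen_lt continuous_const (continuous_X c i)
  · exact (contDiff_prod fun i _ => contDiff_X c i).sub contDiff_const
  · intro h0
    have hF : DifferentiableAt ℝ (fun Q : EuclideanSpace ℝ ι => ∏ i, X c Q i - 1) P := by
      have : ContDiff ℝ 1 (fun Q : EuclideanSpace ℝ ι => ∏ i, X c Q i - 1) :=
        (contDiff_prod fun i _ => contDiff_X c i).sub contDiff_const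
      exact (this.differentiable (by norm_num)) P
    have h3 := hF.hasFDerivAt
    rw [h0] at h3
    -- the line in direction `mkP 1_{i0} 0`
    let i0 : Fin r := ⟨0, hr⟩
    let v : EuclideanSpace ℝ ι := mkP c (Pi.single i0 1) 0
    have h4 : HasDerivAt (fun t : ℝ => P + t • v) v 0 := by
      simpa using ((hasDerivAt_id (0 : ℝ)).smul_const v).const_add P
    have h5 : HasDerivAt (fun t : ℝ => ∏ i, X c (P + t • v) i - 1) 0 0 := by
      have h3' : HasFDerivAt (fun Q : EuclideanSpace ℝ ι => ∏ i, X c Q i - 1)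
        (0 : EuclideanSpace ℝ ι →L[ℝ] ℝ) (P + (0 : ℝ) • v) := by simpa using h3
      have := h3'.comp_hasDerivAt (0 : ℝ) h4
      rw [ContinuousLinearMap.zero_apply] at this
      exact this
    have h6 : (fun t : ℝ => ∏ i, X c (P + t • v) i - 1) =
        fun t : ℝ => (X c P i0 + t) * (∏ i ∈ Finset.univ.erase i0, X c P i) - 1 := by
      funext t
      have hX : ∀ i, X c (P + t • v) i = X c P i + t * (Pi.single i0 1 : Fin r → ℝ) i := by
        intro i
        have : t • v = mkP c (fun i => t * (Pi.single i0 1 : Fin r → ℝ) i) 0 := by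
          apply ext_c c <;> intros <;> simp [v]
        rw [this, X_add]
      rw [← Finset.mul_prod_erase Finset.univ _ (Finset.mem_univ i0), hX i0, Pi.single_eq_same,
        mul_one]
      congr 2
      refine Finset.prod_congr rfl fun i hi => ?_
      rw [hX, Pi.single_eq_of_ne (Finset.ne_of_mem_erase hi), mul_zero, add_zero]
    rw [h6] at h5
    have h7 : HasDerivAt (fun t : ℝ => (X c P i0 + t) *
        (∏ i ∈ Finset.univ.erase i0, X c P i) - 1) (∏ i ∈ Finset.univ.erase i0, X c P i) 0 := by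
      simpa using (((hasDerivAt_id (0 : ℝ)).const_add (X c P i0)).mul_const
        (∏ i ∈ Finset.univ.erase i0, X c P i)).sub_const 1
    have h8 := h5.unique h7
    have h9 : 0 < ∏ i ∈ Finset.univ.erase i0, X c P i := Finset.prod_pos fun i _ => h1 i
    linarith
  · ext Q
    simp only [Dom, Set.mem_inter_iff, Set.mem_ofPred_eq, sub_pos]
    tauto

end V1125.Sccp
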