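import Mathlib
import Pool.Agent.V1125.Sccp.Dom

/-!
# The boundaries are not contained in quadrics
-/

set_option autoImplicit false

namespace V1125.Sccp

open Set

theorem quad_coeff {r : ℕ} (B : (Fin r → ℝ) →ₗ[ℝ] (Fin r → ℝ) →ₗ[ℝ] ℝ)
    (l : (Fin r → ℝ) →ₗ[ℝ] ℝ) (k0 : ℝ)
    (h : ∀ y : Fin r → ℝ, (∀ i, 0 < y i) → ∏ i, y i = 1 → B y y + l y + k0 = 0)
    (i j k : Fin r) (hij : i ≠ j) (hik : i ≠ k) (hjk : j ≠ k) :
    B (Pi.single i 1) (Pi.single i 1) = 0 ∧
    B (Pi.single i 1) (Pi.single j 1) + B (Pi.single j 1) (Pi.single i 1) = 0 ∧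
    (∃ Q : Fin r → ℝ, B Q (Pi.single i 1) + B (Pi.single i 1) Q + l (Pi.single i 1) = 0) := by
  classical
  set ei : Fin r → ℝ := Pi.single i 1 with hei
  set ej : Fin r → ℝ := Pi.single j 1 with hej
  set ek : Fin r → ℝ := Pi.single k 1 with hek
  let Q : Fin r → ℝ := fun a => if a = i ∨ a = j ∨ a = k then 0 else 1
  have hval : ∀ s t : ℝ, 0 < s → 0 < t → (B Q Q + l Q + k0) + s * (B Q ei + B ei Q + l ei) +
      t * (B Q ej + B ej Q + l ej) + (s * t)⁻¹ * (B Q ek + B ek Q + l ek) + s ^ 2 * B ei ei +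
      t ^ 2 * B ej ej + ((s * t)⁻¹) ^ 2 * B ek ek + s * t * (B ei ej + B ej ei) +
      s * (s * t)⁻¹ * (B ei ek + B ek ei) + t * (s * t)⁻¹ * (B ej ek + B ek ej) = 0 := by
    intro s t hs ht
    have hw : 0 < (s * t)⁻¹ := by positivity
    have hy : ∀ a, (Q + s • ei + t • ej + (s * t)⁻¹ • ek) a =
        (if a = i then s else 1) * (if a = j then t else 1) *
          (if a = k then (s * t)⁻¹ else 1) := by
      intro a
      simp only [Q, hei, hej, hek, Pi.add_apply, Pi.smul_apply, smul_eq_mul, Pi.single_apply]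
      by_cases h1 : a = i
      · subst h1; simp [hij, hik]
      · by_cases h2 : a = j
        · subst h2; simp [h1, hjk]
        · by_cases h3 : a = k
          · subst h3; simp [h1, h2]
          · simp [h1, h2, h3]
    have h1 := h (Q + s • ei + t • ej + (s * t)⁻¹ • ek) (by
      intro a
      rw [hy]
      split_ifs <;> positivity) (by
      simp_rw [hy]
      rw [Finset.prod_mul_distrib, Finset.prod_mul_distrib]
      simp only [Finset.prod_ite_eq', Finset.mem_univ, if_true]
      field_simp)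
    simp only [map_add, map_smul, LinearMap.add_apply, LinearMap.smul_apply, smul_eq_mul] at h1
    linarith
  have e1 := hval 1 1 (by norm_num) (by norm_num)
  have e2 := hval 2 1 (by norm_num) (by norm_num)
  have e3 := hval 1 2 (by norm_num) (by norm_num)
  have e4 := hval 2 2 (by norm_num) (by norm_num)
  have e5 := hval 3 1 (by norm_num) (by norm_num)
  have e6 := hval 1 3 (by norm_num) (by norm_num)
  have e7 := hval 3 3 (by norm_num) (by norm_num)
  have e8 := hval 2 3 (by norm_num) (by norm_num)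
  have e9 := hval 4 1 (by norm_num) (by norm_num)
  have e10 := hval 1 4 (by norm_num) (by norm_num)
  norm_num at e1 e2 e3 e4 e5 e6 e7 e8 e9 e10
  refine ⟨by linarith, by linarith, Q, by linarith⟩

theorem exists_third {r : ℕ} (hr : 3 ≤ r) (i j : Fin r) : ∃ k : Fin r, i ≠ k ∧ j ≠ k := by
  classical
  have h1 : ({i, j} : Finset (Fin r)).card < (Finset.univ : Finset (Fin r)).card := by
    have := Finset.card_le_two (a := i) (b := j)
    simp only [Finset.card_univ, Fintype.card_fin]
    omega
  obtain ⟨k, -, hk⟩ := Finset.exists_mem_notMem_of_card_lt_card h1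
  simp only [Finset.mem_insert, Finset.mem_singleton, not_or] at hk
  exact ⟨k, fun h => hk.1 h.symm, fun h => hk.2 h.symm⟩

theorem quad_zero {r : ℕ} (hr : 3 ≤ r) (B : (Fin r → ℝ) →ₗ[ℝ] (Fin r → ℝ) →ₗ[ℝ] ℝ)
    (l : (Fin r → ℝ) →ₗ[ℝ] ℝ) (k0 : ℝ)
    (h : ∀ y : Fin r → ℝ, (∀ i, 0 < y i) → ∏ i, y i = 1 → B y y + l y + k0 = 0) :
    ∀ y : Fin r → ℝ, B y y + l y + k0 = 0 := by
  classical
  have hne : ∀ i : Fin r, ∃ j, i ≠ j := fun i => by
    obtain ⟨k, hk, _⟩ := exists_third hr i i
    exact ⟨k, hk⟩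
  have hB : B + B.flip = 0 := by
    apply LinearMap.pi_ext'
    intro i
    apply LinearMap.ext_ring
    apply LinearMap.pi_ext'
    intro j
    apply LinearMap.ext_ring
    simp only [LinearMap.comp_apply, LinearMap.coe_single, LinearMap.add_apply,
      LinearMap.flip_apply, LinearMap.zero_apply]
    by_cases hij : i = j
    · subst hij
      obtain ⟨j, hij⟩ := hne i
      obtain ⟨k, hik, hjk⟩ := exists_third hr i j
      rw [(quad_coeff B l k0 h i j k hij hik hjk).1, add_zero]
    · obtain ⟨k, hik, hjk⟩ := exists_third hr i j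
      exact (quad_coeff B l k0 h i j k hij hik hjk).2.1
  have hB' : ∀ x y, B x y + B y x = 0 := fun x y => by
    have := congrArg (fun f => f x y) hB
    simpa using this
  have hl : l = 0 := by
    apply LinearMap.pi_ext'
    intro i
    apply LinearMap.ext_ring
    obtain ⟨j, hij⟩ := hne i
    obtain ⟨k, hik, hjk⟩ := exists_third hr i j
    obtain ⟨Q, hQ⟩ := (quad_coeff B l k0 h i j k hij hik hjk).2.2
    rw [hB', zero_add] at hQ
    simpa using hQ
  have hk : k0 = 0 := by
    have h1 := h 1 (by simp) (by simp)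
    have h2 := hB' 1 1
    rw [hl] at h1
    simp only [LinearMap.zero_apply] at h1
    linarith
  intro y
  have h2 := hB' y y
  rw [hl, hk]
  simp only [LinearMap.zero_apply]
  linarith

variable {ι : Type*} [Fintype ι] {r m : ℕ} (c : Fin r × Fin (m + 1) ≃ ι)

/-- `y ↦ mkP y 0` as a linear map. -/
noncomputable def incl : (Fin r → ℝ) →ₗ[ℝ] EuclideanSpace ℝ ι where
  toFun y := mkP c y 0
  map_add' x y := by apply ext_c c <;> intros <;> simp
  map_smul' a y := by apply ext_c c <;> intros <;> simp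

/-- The boundary is not contained in a quadric hypersurface. -/
theorem not_quadric (hr : 3 ≤ r)
    (B : EuclideanSpace ℝ ι →ₗ[ℝ] EuclideanSpace ℝ ι →ₗ[ℝ] ℝ)
    (l : EuclideanSpace ℝ ι →ₗ[ℝ] ℝ) (k0 : ℝ)
    (h : ∀ P ∈ frontier (Dom c), B P P + l P + k0 = 0) : ∀ P, B P P + l P + k0 = 0 := by
  intro P
  -- split `P = R + incl y`
  let z : Fin r → Fin m → ℝ := fun i j => P (c (i, j.succ))
  let R : EuclideanSpace ℝ ι := mkP c (fun i => ∑ j, (z i j) ^ 2) z
  have hR : ∀ y i, X c (R + incl c y) i = y i := by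
    intro y i
    have : incl c y = mkP c y 0 := rfl
    rw [this, X_add, X_mkP]
    ring
  have hP : P = R + incl c (fun i => X c P i) := by
    apply ext_c c
    · intro i
      simp [R, incl, X, z]
    · intro i j
      simp [R, incl, z]
  have key := quad_zero hr (B.compl₁₂ (incl c) (incl c))
    (l ∘ₗ incl c + (B R) ∘ₗ incl c + (B.flip R) ∘ₗ incl c) (B R R + l R + k0) (by
      intro y hy hprod
      have h1 := h (R + incl c y) (by
        rw [frontier_dom c (by omega)]
        refine ⟨fun i => by rw [hR]; exact hy i, ?_⟩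
        simp_rw [hR]
        exact hprod)
      simp only [map_add, LinearMap.add_apply] at h1
      simp only [LinearMap.compl₁₂_apply, LinearMap.add_apply, LinearMap.comp_apply,
        LinearMap.flip_apply]
      linarith)
  have h2 := key (fun i => X c P i)
  simp only [LinearMap.compl₁₂_apply, LinearMap.add_apply, LinearMap.comp_apply,
        LinearMap.flip_apply] at h2
  rw [hP]
  simp only [map_add, LinearMap.add_apply]
  linarith

end V1125.Sccp
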