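import Mathlib
import Pool.Agent.V1125.Sccp.Quad

/-!
# Affine symmetries of the sections and the collinearity of the centroids
-/

set_option autoImplicit false

namespace V1125.Sccp

open Set Module

variable {ι : Type*} [Fintype ι] {r m : ℕ} (c : Fin r × Fin (m + 1) ≃ ι)

theorem inner_c (U P : EuclideanSpace ℝ ι) : inner ℝ U P =
    ∑ i : Fin r, (U (c (i, 0)) * P (c (i, 0)) +
      ∑ j : Fin m, U (c (i, j.succ)) * P (c (i, j.succ))) := by
  rw [PiLp.inner_apply, ← Equiv.sum_comp c, Fintype.sum_prod_type]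
  refine Finset.sum_congr rfl fun i _ => ?_
  rw [Fin.sum_univ_succ]
  simp only [RCLike.inner_apply, conj_trivial]
  rw [mul_comm]
  congr 1
  exact Finset.sum_congr rfl fun j _ => mul_comm _ _

section Sym

variable (u : Fin r → ℝ) (a : Fin r → Fin m → ℝ) (τ : Equiv.Perm (Fin r)) (e ρ : Fin r → ℝ)

/-- The first coordinate completed to a square. -/
noncomputable def Y (P : EuclideanSpace ℝ ι) (i : Fin r) : ℝ :=
  P (c (i, 0)) + ∑ j : Fin m, (2 * a i j * P (c (i, j.succ)) + (a i j) ^ 2)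

theorem X_eq (P : EuclideanSpace ℝ ι) (i : Fin r) :
    X c P i = Y c a P i - ∑ j : Fin m, (P (c (i, j.succ)) + a i j) ^ 2 := by
  unfold X Y
  have h : ∑ j : Fin m, (P (c (i, j.succ)) + a i j) ^ 2 =
      ∑ j : Fin m, P (c (i, j.succ)) ^ 2 +
        ∑ j : Fin m, (2 * a i j * P (c (i, j.succ)) + (a i j) ^ 2) := by
    rw [← Finset.sum_add_distrib]
    exact Finset.sum_congr rfl fun j _ => by ring
  rw [h]; ring

/-- New `z` coordinates. -/
noncomputable def zn (P : EuclideanSpace ℝ ι) (i : Fin r) (j : Fin m) : ℝ :=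
  -a i j + e i * ρ i * (P (c (τ i, j.succ)) + a (τ i) j)

/-- New `x` coordinates. -/
noncomputable def xn (P : EuclideanSpace ℝ ι) (i : Fin r) : ℝ :=
  (ρ i) ^ 2 * Y c a P (τ i) - ∑ j : Fin m, (2 * a i j * zn c a τ e ρ P i j + (a i j) ^ 2)

/-- The affine symmetry. -/
noncomputable def T (P : EuclideanSpace ℝ ι) : EuclideanSpace ℝ ι :=
  mkP c (xn c a τ e ρ P) (zn c a τ e ρ P)

theorem Y_T (P : EuclideanSpace ℝ ι) (i : Fin r) :
    Y c a (T c a τ e ρ P) i = (ρ i) ^ 2 * Y c a P (τ i) := by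
  conv_lhs => unfold Y T
  simp only [mkP_zero, mkP_succ]
  unfold xn
  ring

variable (he : ∀ i, (e i) ^ 2 = 1) (heτ : ∀ i, e i * e (τ i) = 1)
  (hρτ : ∀ i, ρ i * ρ (τ i) = 1) (hττ : ∀ i, τ (τ i) = i) (hu : ∀ i, 0 < u i)
  (hρu : ∀ i, (ρ i) ^ 2 * u i = u (τ i))

include heτ hρτ hττ in
theorem T_T (P : EuclideanSpace ℝ ι) : T c a τ e ρ (T c a τ e ρ P) = P := by
  have hz : ∀ i j, zn c a τ e ρ (T c a τ e ρ P) i j = P (c (i, Fin.succ j)) := by
    intro i j
    conv_lhs => unfold zn T
    rw [mkP_succ]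
    unfold zn
    rw [hττ]
    have h1 : e i * ρ i * (-a (τ i) j + e (τ i) * ρ (τ i) * (P (c (i, j.succ)) + a i j) +
        a (τ i) j) = (e i * e (τ i)) * (ρ i * ρ (τ i)) * (P (c (i, j.succ)) + a i j) := by ring
    rw [h1, heτ, hρτ]
    ring
  apply ext_c c
  · intro i
    have h1 : T c a τ e ρ (T c a τ e ρ P) (c (i, 0)) = xn c a τ e ρ (T c a τ e ρ P) i :=
      mkP_zero c _ _ i
    rw [h1]
    unfold xn
    rw [Y_T, hττ]
    simp only [hz]
    have h2 : ρ i ^ 2 * (ρ (τ i) ^ 2 * Y c a P i) = (ρ i * ρ (τ i)) ^ 2 * Y c a P i := by ring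
    rw [h2, hρτ]
    unfold Y
    ring
  · intro i j
    have h1 : T c a τ e ρ (T c a τ e ρ P) (c (i, j.succ)) =
        zn c a τ e ρ (T c a τ e ρ P) i j := mkP_succ c _ _ i j
    rw [h1, hz]

include he in
theorem X_T (P : EuclideanSpace ℝ ι) (i : Fin r) :
    X c (T c a τ e ρ P) i = (ρ i) ^ 2 * X c P (τ i) := by
  rw [X_eq c a, X_eq c a, Y_T, mul_sub, Finset.mul_sum]
  congr 1
  refine Finset.sum_congr rfl fun j _ => ?_
  have h1 : T c a τ e ρ P (c (i, j.succ)) = zn c a τ e ρ P i j := mkP_succ c _ _ i j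
  rw [h1]
  unfold zn
  have h2 : (-a i j + e i * ρ i * (P (c (τ i, j.succ)) + a (τ i) j) + a i j) ^ 2 =
      (e i) ^ 2 * (ρ i ^ 2 * (P (c (τ i, j.succ)) + a (τ i) j) ^ 2) := by ring
  rw [h2, he, one_mul]

include he hu hρu in
theorem T_mem {P : EuclideanSpace ℝ ι} (hP : P ∈ Dom c) : T c a τ e ρ P ∈ Dom c := by
  obtain ⟨h1, h2⟩ := hP
  have hρpos : ∀ i, 0 < (ρ i) ^ 2 := fun i => by
    have h3 := hρu i
    have h4 := hu i
    have h5 := hu (τ i)
    rw [← h3] at h5
    exact lt_of_le_of_ne (sq_nonneg _) (fun h => by rw [← h, zero_mul] at h5; exact lt_irrefl _ h5)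
  refine ⟨fun i => by rw [X_T c a τ e ρ he]; exact mul_pos (hρpos i) (h1 _), ?_⟩
  have h3 : ∏ i, X c (T c a τ e ρ P) i = ∏ i, X c P i := by
    simp_rw [X_T c a τ e ρ he]
    rw [Finset.prod_mul_distrib, Equiv.prod_comp τ (fun i => X c P i)]
    have h4 : (∏ i, (ρ i) ^ 2) * ∏ i, u i = ∏ i, u i := by
      rw [← Finset.prod_mul_distrib]
      simp_rw [hρu]
      exact Equiv.prod_comp τ u
    have h5 : (∏ i, u i) ≠ 0 := (Finset.prod_pos fun i _ => hu i).ne'
    have h6 : (∏ i, (ρ i) ^ 2) = 1 := by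
      have h7 : (∏ i, (ρ i) ^ 2) * ∏ i, u i = 1 * ∏ i, u i := by rw [h4, one_mul]
      exact mul_right_cancel₀ h5 h7
    rw [h6, one_mul]
  rw [h3]
  exact h2

variable (U : EuclideanSpace ℝ ι) (hU0 : ∀ i, U (c (i, 0)) = u i)
  (hU1 : ∀ i (j : Fin m), U (c (i, j.succ)) = 2 * u i * a i j)

include hU0 hU1 in
theorem inner_Y (P : EuclideanSpace ℝ ι) : inner ℝ U P =
    ∑ i, u i * Y c a P i - ∑ i, u i * ∑ j : Fin m, (a i j) ^ 2 := by
  rw [inner_c c, ← Finset.sum_sub_distrib]
  refine Finset.sum_congr rfl fun i _ => ?_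
  rw [hU0]
  simp only [hU1]
  unfold Y
  rw [Finset.sum_add_distrib, mul_add, mul_add, Finset.mul_sum]
  have : ∑ j : Fin m, 2 * u i * a i j * P (c (i, j.succ)) =
      ∑ j : Fin m, u i * (2 * a i j * P (c (i, j.succ))) :=
    Finset.sum_congr rfl fun j _ => by ring
  rw [this]
  ring

include hU0 hU1 hρu in
theorem inner_T (P : EuclideanSpace ℝ ι) : inner ℝ U (T c a τ e ρ P) = inner ℝ U P := by
  rw [inner_Y c u a U hU0 hU1, inner_Y c u a U hU0 hU1]
  congr 1
  rw [← Equiv.sum_comp τ (fun i => u i * Y c a P i)]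
  refine Finset.sum_congr rfl fun i _ => ?_
  rw [Y_T, ← hρu]
  ring

/-- The linear part of `T`. -/
noncomputable def L : EuclideanSpace ℝ ι →ₗ[ℝ] EuclideanSpace ℝ ι where
  toFun P := mkP c (fun i => (ρ i) ^ 2 * (P (c (τ i, 0)) +
      ∑ j : Fin m, 2 * a (τ i) j * P (c (τ i, j.succ))) -
      ∑ j : Fin m, 2 * a i j * (e i * ρ i * P (c (τ i, j.succ))))
    (fun i j => e i * ρ i * P (c (τ i, j.succ)))
  map_add' P Q := by
    apply ext_c c
    · intro i
      simp [mul_add, Finset.sum_add_distrib]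
      ring
    · intro i j
      simp [mul_add]
  map_smul' t P := by
    apply ext_c c
    · intro i
      simp only [mkP_zero, PiLp.smul_apply, smul_eq_mul, RingHom.id_apply]
      rw [mul_sub, Finset.mul_sum, mul_left_comm t, mul_add t, Finset.mul_sum]
      congr 2
      · congr 1
        exact Finset.sum_congr rfl fun j _ => by ring
      · funext j
        ring
    · intro i j
      simp only [mkP_succ, PiLp.smul_apply, smul_eq_mul, RingHom.id_apply]
      ring

theorem T_add (P Q : EuclideanSpace ℝ ι) :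
    T c a τ e ρ (P + Q) = T c a τ e ρ P + L c a τ e ρ Q := by
  apply ext_c c
  · intro i
    simp only [T, L, mkP_zero, PiLp.add_apply, LinearMap.coe_mk, AddHom.coe_mk]
    unfold xn Y zn
    simp only [PiLp.add_apply, mul_add, Finset.sum_add_distrib]
    ring
  · intro i j
    simp only [T, L, mkP_succ, PiLp.add_apply, LinearMap.coe_mk, AddHom.coe_mk]
    unfold zn
    simp only [PiLp.add_apply]
    ring

end Sym

open Module in
/-- A direction in the closed orthant of the `x` coordinates. -/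
theorem dir_mem (hr : 0 < r) (y : Fin r → ℝ) (hy : ∀ i, 0 ≤ y i) (t : ℝ) (ht : 0 ≤ t) :
    mkP c (fun _ => 2) (0 : Fin r → Fin m → ℝ) + t • mkP c y 0 ∈ Dom c := by
  have h0 : t • mkP c y 0 = mkP c (fun i => t * y i) (0 : Fin r → Fin m → ℝ) := by
    apply ext_c c <;> intros <;> simp
  have hX : ∀ i, X c (mkP c (fun _ => 2) (0 : Fin r → Fin m → ℝ) + t • mkP c y 0) i =
      2 + t * y i := by
    intro i
    rw [h0, X_add, X_mkP]
    simp
  have h2 : ∀ i, 2 ≤ 2 + t * y i := fun i => by have := mul_nonneg ht (hy i); linarith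
  refine ⟨fun i => by rw [hX]; linarith [h2 i], ?_⟩
  simp_rw [hX]
  have h3 : ∏ _i : Fin r, (2 : ℝ) ≤ ∏ i : Fin r, (2 + t * y i) :=
    Finset.prod_le_prod (fun i _ => by norm_num) (fun i _ => h2 i)
  refine lt_of_lt_of_le ?_ h3
  rw [Finset.prod_const]
  exact one_lt_pow₀ (by norm_num) (by simp; omega)

/-- Main collinearity statement for a normal vector with positive first coordinates. -/
theorem collinear_pos (hr : 3 ≤ r) (n : ℕ) (M : Submodule ℝ (EuclideanSpace ℝ ι))
    (hn : finrank ℝ M = n) (U : EuclideanSpace ℝ ι)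
    (hMU : ∀ P, P ∈ M ↔ inner ℝ U P = 0) (hpos : ∀ i, 0 < U (c (i, 0)))
    (hb : ∀ x, Bornology.IsBounded ({y | y - x ∈ M} ∩ Dom c)) :
    ∃ p v : EuclideanSpace ℝ ι, v ≠ 0 ∧ ∀ x, ({y | y - x ∈ M} ∩ interior (Dom c)).Nonempty →
      ∃ s : ℝ, cen n ({y | y - x ∈ M} ∩ Dom c) = p + s • v := by
  classical
  let u : Fin r → ℝ := fun i => U (c (i, 0))
  let a : Fin r → Fin m → ℝ := fun i j => U (c (i, j.succ)) / (2 * u i)
  have hu : ∀ i, 0 < u i := hpos
  have hU1 : ∀ i (j : Fin m), U (c (i, j.succ)) = 2 * u i * a i j := by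
    intro i j
    have := (hu i).ne'
    simp only [a]
    field_simp
  refine ⟨mkP c (fun i => ∑ j, (a i j) ^ 2) (fun i j => -a i j), mkP c (fun i => 1 / u i) 0,
    ?_, ?_⟩
  · intro h0
    have h1 : mkP c (fun i => 1 / u i) (0 : Fin r → Fin m → ℝ) (c (⟨0, by omega⟩, 0)) = 0 := by
      rw [h0]; rfl
    rw [mkP_zero] at h1
    exact (one_div_pos.2 (hu ⟨0, by omega⟩)).ne' h1
  · rintro x ⟨P1, hP1x, hP1⟩
    rw [(isOpen_dom c).interior_eq] at hP1
    have hset : {y | y - x ∈ M} = {y | y - P1 ∈ M} := by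
      ext y
      have h1 : P1 - x ∈ M := hP1x
      simp only [Set.mem_ofPred_eq]
      constructor
      · intro h2
        have := M.sub_mem h2 h1
        simpa using this
      · intro h2
        have := M.add_mem h2 h1
        simpa using this
    have hb1 := hb x
    rw [hset] at hb1 ⊢
    obtain ⟨C, hC⟩ : ∃ C, cen n ({y | y - P1 ∈ M} ∩ Dom c) = C := ⟨_, rfl⟩
    rw [hC]
    -- the symmetries
    have hfix : ∀ i0 k0 : Fin r, i0 ≠ k0 → ∃ ρ : ℝ, 0 < ρ ∧ ρ ^ 2 * u i0 = u k0 ∧
        (∀ j, C (c (i0, Fin.succ j)) = -a i0 j - ρ * (C (c (k0, j.succ)) + a k0 j)) ∧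
        Y c a C i0 = ρ ^ 2 * Y c a C k0 := by
      intro i0 k0 hik
      let τ : Equiv.Perm (Fin r) := Equiv.swap i0 k0
      let e : Fin r → ℝ := fun i => if τ i = i then 1 else -1
      let ρ : Fin r → ℝ := fun i => Real.sqrt (u (τ i) / u i)
      have hττ : ∀ i, τ (τ i) = i := fun i => Equiv.swap_apply_self _ _ _
      have he : ∀ i, (e i) ^ 2 = 1 := by
        intro i
        simp only [e]
        split_ifs <;> norm_num
      have heτ : ∀ i, e i * e (τ i) = 1 := by
        intro i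
        have h1 : e (τ i) = e i := by
          simp only [e, hττ]
          by_cases h : τ i = i
          · rw [if_pos h, if_pos h.symm]
          · rw [if_neg h, if_neg (fun h' => h h'.symm)]
        rw [h1, ← sq, he]
      have hρτ : ∀ i, ρ i * ρ (τ i) = 1 := by
        intro i
        simp only [ρ, hττ]
        rw [← Real.sqrt_mul (div_pos (hu _) (hu _)).le]
        have h1 := (hu i).ne'
        have h2 := (hu (τ i)).ne'
        rw [div_mul_div_comm, mul_comm, div_self (mul_ne_zero h1 h2), Real.sqrt_one]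
      have hρu : ∀ i, (ρ i) ^ 2 * u i = u (τ i) := by
        intro i
        simp only [ρ]
        rw [Real.sq_sqrt (div_pos (hu _) (hu _)).le, div_mul_cancel₀ _ (hu i).ne']
      have hT := cen_fixed M n hn P1 (Dom c) (isOpen_dom c) hP1 hb1 (T c a τ e ρ)
        (L c a τ e ρ) (T_add c a τ e ρ) (T_T c a τ e ρ heτ hρτ hττ)
        (by
          intro v hv
          rw [hMU] at hv ⊢
          have h1 := T_add c a τ e ρ 0 v
          have h2 := inner_T c u a τ e ρ hρu U (fun _ => rfl) hU1 v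
          have h3 := inner_T c u a τ e ρ hρu U (fun _ => rfl) hU1 0
          rw [zero_add] at h1
          rw [h1, inner_add_right, h3, inner_zero_right, zero_add] at h2
          rw [h2, hv])
        (by
          rw [hMU, inner_sub_right, inner_T c u a τ e ρ hρu U (fun _ => rfl) hU1, sub_self])
        (fun P hP => T_mem c u a τ e ρ he hu hρu hP)
      rw [hC] at hT
      have hτi : τ i0 = k0 := Equiv.swap_apply_left _ _
      have hei : e i0 = -1 := by
        simp only [e, hτi]
        rw [if_neg hik.symm]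
      refine ⟨ρ i0, Real.sqrt_pos.2 (div_pos (hu _) (hu _)), by rw [hρu, hτi], ?_, ?_⟩
      · intro j
        have h1 : T c a τ e ρ C (c (i0, j.succ)) = zn c a τ e ρ C i0 j := mkP_succ c _ _ i0 j
        rw [hT] at h1
        rw [h1]
        unfold zn
        rw [hei, hτi]
        ring
      · have h1 := Y_T c a τ e ρ C i0
        rw [hT, hτi] at h1
        exact h1
    -- the `z` coordinates
    have hz : ∀ i (j : Fin m), C (c (i, j.succ)) = -a i j := by
      intro i j
      let w : Fin r → ℝ := fun i => Real.sqrt (u i) * (C (c (i, j.succ)) + a i j)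
      have hw : ∀ i k, i ≠ k → w i = -w k := by
        intro i k hik
        obtain ⟨ρ, hρ, hρu, h1, -⟩ := hfix i k hik
        simp only [w]
        have h2 : Real.sqrt (u k) = ρ * Real.sqrt (u i) := by
          rw [← hρu, Real.sqrt_mul (by positivity), Real.sqrt_sq hρ.le]
        rw [h2, h1 j]
        ring
      obtain ⟨k, hik, _⟩ := exists_third hr i i
      obtain ⟨l, hil, hkl⟩ := exists_third hr i k
      have h1 := hw i k hik
      have h2 := hw k l hkl
      have h3 := hw i l hil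
      have h4 : w i = 0 := by linarith
      have h5 : C (c (i, j.succ)) + a i j = 0 :=
        (mul_eq_zero.1 h4).resolve_left (Real.sqrt_pos.2 (hu i)).ne'
      linarith
    -- the `x` coordinates
    have hY : ∀ i k, u i * Y c a C i = u k * Y c a C k := by
      intro i k
      by_cases hik : i = k
      · rw [hik]
      · obtain ⟨ρ, hρ, hρu, -, h1⟩ := hfix i k hik
        rw [h1, ← hρu]
        ring
    refine ⟨u ⟨0, by omega⟩ * Y c a C ⟨0, by omega⟩, ?_⟩
    apply ext_c c
    · intro i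
      have h1 := hY i ⟨0, by omega⟩
      rw [← h1]
      simp only [PiLp.add_apply, PiLp.smul_apply, mkP_zero, smul_eq_mul]
      have h2 : u i * Y c a C i * (1 / u i) = Y c a C i := by
        have := (hu i).ne'
        field_simp
      rw [h2]
      unfold Y
      simp only [hz]
      have h3 : ∑ j : Fin m, (a i j) ^ 2 + ∑ j : Fin m, (2 * a i j * -a i j + (a i j) ^ 2) = 0 := by
        rw [← Finset.sum_add_distrib]
        exact Finset.sum_eq_zero fun j _ => by ring
      linarith
    · intro i j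
      rw [hz]
      simp

/-- The section-centroid collinearity property, for submodules given by a normal vector. -/
theorem collinear (hr : 3 ≤ r) (n : ℕ) (M : Submodule ℝ (EuclideanSpace ℝ ι))
    (hn : finrank ℝ M = n) (hι : Fintype.card ι = n + 1)
    (hb : ∀ x, Bornology.IsBounded ({y | y - x ∈ M} ∩ Dom c)) :
    ∃ p v : EuclideanSpace ℝ ι, v ≠ 0 ∧ ∀ x, ({y | y - x ∈ M} ∩ interior (Dom c)).Nonempty →
      ∃ s : ℝ, cen n ({y | y - x ∈ M} ∩ Dom c) = p + s • v := by
  classical
  -- the normal vector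
  have h1 : finrank ℝ Mᗮ = 1 := by
    have h2 := M.finrank_add_finrank_orthogonal
    rw [finrank_euclideanSpace, hι, hn] at h2
    omega
  obtain ⟨⟨U, hUM⟩, hU0, hspan⟩ := finrank_eq_one_iff'.1 h1
  have hU0' : U ≠ 0 := fun h => hU0 (Subtype.ext h)
  have hMU : ∀ P, P ∈ M ↔ inner ℝ U P = 0 := by
    intro P
    constructor
    · intro hP
      exact (Submodule.mem_orthogonal' M U).1 hUM P hP
    · intro hP
      rw [← Submodule.orthogonal_orthogonal M, Submodule.mem_orthogonal]
      intro W hW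
      obtain ⟨t, ht⟩ := hspan ⟨W, hW⟩
      have h3 : W = t • U := by
        have := congrArg Subtype.val ht
        simpa using this.symm
      rw [h3, inner_smul_left, hP, mul_zero]
  -- no direction of the closed orthant is orthogonal to `U`
  have hno : ∀ y : Fin r → ℝ, (∀ i, 0 ≤ y i) → y ≠ 0 → ∑ i, U (c (i, 0)) * y i ≠ 0 := by
    intro y hy hy0 hsum
    have hin : inner ℝ U (mkP c y 0) = 0 := by
      rw [inner_c c]
      simpa using hsum
    have hne : mkP c y (0 : Fin r → Fin m → ℝ) ≠ 0 := by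
      intro h0
      apply hy0
      funext i
      have h3 := mkP_zero c y (0 : Fin r → Fin m → ℝ) i
      rw [h0] at h3
      exact h3.symm
    have h3 := hb (mkP c (fun _ => 2) 0)
    obtain ⟨R, hR⟩ := h3.exists_norm_le
    have h4 : ∀ t : ℝ, 0 ≤ t → ‖mkP c (fun _ => 2) (0 : Fin r → Fin m → ℝ) +
        t • mkP c y 0‖ ≤ R := by
      intro t ht
      apply hR
      refine ⟨?_, dir_mem c (by omega) y hy t ht⟩
      rw [Set.mem_ofPred_eq, add_sub_cancel_left, hMU, inner_smul_right, hin, mul_zero]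
    have hn0 : 0 < ‖mkP c y (0 : Fin r → Fin m → ℝ)‖ := norm_pos_iff.2 hne
    have h5 := h4 ((R + ‖mkP c (fun _ => 2) (0 : Fin r → Fin m → ℝ)‖ + 1) /
      ‖mkP c y (0 : Fin r → Fin m → ℝ)‖) (by
        have h6 := (norm_nonneg _).trans (h4 0 le_rfl)
        positivity)
    have h6 : ‖((R + ‖mkP c (fun _ => 2) (0 : Fin r → Fin m → ℝ)‖ + 1) /
      ‖mkP c y (0 : Fin r → Fin m → ℝ)‖) • mkP c y (0 : Fin r → Fin m → ℝ)‖ =
        R + ‖mkP c (fun _ => 2) (0 : Fin r → Fin m → ℝ)‖ + 1 := by
      have h7 := (norm_nonneg _).trans (h4 0 le_rfl)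
      rw [norm_smul, Real.norm_of_nonneg (by positivity)]
      field_simp
    have h7 := norm_sub_le_norm_add (((R + ‖mkP c (fun _ => 2) (0 : Fin r → Fin m → ℝ)‖ + 1) /
      ‖mkP c y (0 : Fin r → Fin m → ℝ)‖) • mkP c y (0 : Fin r → Fin m → ℝ))
      (mkP c (fun _ => 2) (0 : Fin r → Fin m → ℝ))
    rw [add_comm] at h5
    rw [h6] at h7
    linarith
  have hne0 : ∀ i, U (c (i, 0)) ≠ 0 := by
    intro i h0
    refine hno (Pi.single i 1) (fun k => ?_) ?_ ?_
    · by_cases h : k = i
      · subst h; simp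
      · rw [Pi.single_eq_of_ne h]
    · intro h
      have := congrFun h i
      simp at this
    · simp [Pi.single_apply, h0]
  have hsign : ∀ i k, U (c (i, 0)) < 0 → ¬ 0 < U (c (k, 0)) := by
    intro i k hi hk
    have hik : i ≠ k := by
      rintro rfl
      linarith
    refine hno (Pi.single i (U (c (k, 0))) + Pi.single k (-U (c (i, 0)))) (fun l => ?_) ?_ ?_
    · rw [Pi.add_apply]
      refine add_nonneg ?_ ?_
      · by_cases h : l = i
        · subst h; simp [hk.le]
        · rw [Pi.single_eq_of_ne h]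
      · by_cases h : l = k
        · subst h; simp [hi.le]
        · rw [Pi.single_eq_of_ne h]
    · intro h
      have := congrFun h i
      simp [Pi.single_apply, hik] at this
      linarith
    · simp only [Pi.add_apply, mul_add, Finset.sum_add_distrib, Pi.single_apply, mul_ite, mul_zero,
        Finset.sum_ite_eq', Finset.mem_univ, if_true]
      ring
  by_cases hpos : ∀ i, 0 < U (c (i, 0))
  · exact collinear_pos c hr n M hn U hMU hpos hb
  · push Not at hpos
    obtain ⟨i, hi⟩ := hpos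
    have hi' : U (c (i, 0)) < 0 := lt_of_le_of_ne hi (hne0 i)
    refine collinear_pos c hr n M hn (-U) (fun P => ?_) (fun k => ?_) hb
    · rw [hMU, inner_neg_left, neg_eq_zero]
    · have h3 := not_lt.1 (hsign i k hi')
      have h4 := lt_of_le_of_ne h3 (hne0 k)
      have h5 : (-U) (c (k, 0)) = -(U (c (k, 0))) := rfl
      rw [h5]
      linarith

end V1125.Sccp
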